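import Pool.Agent.R518.Markoff3A
import Pool.Agent.R518.Markoff3B

/-!
# Infinitely many `m` whose number of minimal `m`-Markoff triples is divisible by three
-/

set_option autoImplicit false

namespace Pool.Agent.Results.MP_208885_nt.InfinitelyMany

/-- `(a, b, c)` is an `m`-Markoff triple: positive integers with `a² + b² + c² = 3abc + m`. -/
def IsMarkoffTriple (m a b c : ℤ) : Prop :=
  0 < a ∧ 0 < b ∧ 0 < c ∧ a ^ 2 + b ^ 2 + c ^ 2 = 3 * a * b * c + m

/-- `O m` is the set of the minimal `m`-Markoff triples, that is of those `m`-Markoff triples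
`(a, b, c)` with `a ≤ b ≤ c` and `3ab - c ≤ 0`. -/
def O (m : ℤ) : Set (ℤ × ℤ × ℤ) :=
  {t | IsMarkoffTriple m t.1 t.2.1 t.2.2 ∧ t.1 ≤ t.2.1 ∧ t.2.1 ≤ t.2.2 ∧
    3 * t.1 * t.2.1 - t.2.2 ≤ 0}

/-- There are infinitely many integers `m > 1` for which the (finite) set `O m` of minimal
`m`-Markoff triples is nonempty and has a number of elements divisible by `3`. -/
theorem result :
    {m : ℤ | 1 < m ∧ (O m).Finite ∧ (O m).Nonempty ∧ 3 ∣ (O m).ncard}.Infinite := by
  have hO : ∀ m : ℤ, O m = R518.Markoff3.O m := by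
    intro m
    ext t
    simp only [O, IsMarkoffTriple, R518.Markoff3.O, R518.Markoff3.Minimal, Set.mem_ofPred_eq]
    tauto
  refine Set.infinite_of_forall_exists_gt ?_
  intro M
  obtain ⟨s, hs⟩ : ∃ s : ℕ, 155 ≤ s ∧ M < s := by
    refine ⟨155 + M.toNat, by omega, ?_⟩
    have := Int.self_le_toNat M
    push_cast
    linarith
  obtain ⟨u, v, hu, hv, hrep⟩ := R518.Markoff3.exists_good s hs.1
  have hs1 : (155 : ℤ) ≤ s := by exact_mod_cast hs.1
  have hsp : (s : ℤ) ≤ (s : ℤ) ^ 10 := le_self_pow₀ (by linarith) (by norm_num)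
  have hval : 0 < (9 * u + 1) * (9 * v + 1) := mul_pos (by linarith) (by linarith)
  have hbig : (s : ℤ) < R518.Markoff3.val u v := by
    unfold R518.Markoff3.val
    nlinarith [sq_nonneg (9 * v + 1)]
  have h2sq : ∀ a b : ℤ, 0 < a → 0 < b → a ^ 2 + b ^ 2 ≠ R518.Markoff3.val u v := by
    intro a b _ _ h
    unfold R518.Markoff3.val at h
    have hmod : (a ^ 2 + b ^ 2) % 9 = 6 := by
      rw [h]
      have : 1 + (9 * u + 1) ^ 2 + (9 * v + 1) ^ 2 + 3 * (9 * u + 1) * (9 * v + 1) =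
          6 + 9 * (9 * u ^ 2 + 2 * u + 9 * v ^ 2 + 2 * v + 27 * u * v + 3 * u + 3 * v) := by ring
      omega
    have ha : a % 3 = 0 ∨ a % 3 = 1 ∨ a % 3 = 2 := by omega
    have hb : b % 3 = 0 ∨ b % 3 = 1 ∨ b % 3 = 2 := by omega
    obtain ⟨k, hk⟩ : ∃ k, a = 3 * k + a % 3 := ⟨a / 3, by omega⟩
    obtain ⟨l, hl⟩ : ∃ l, b = 3 * l + b % 3 := ⟨b / 3, by omega⟩
    rcases ha with ha | ha | ha <;> rcases hb with hb | hb | hb <;>
      rw [ha] at hk <;> rw [hb] at hl <;> rw [hk, hl] at hmod <;> ring_nf at hmod <;> omega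
  obtain ⟨hfin, hdvd, hne⟩ := R518.Markoff3.main_comb _ h2sq hrep
  refine ⟨R518.Markoff3.val u v, ⟨by linarith, ?_, ?_, ?_⟩, by linarith [hs.2]⟩
  · rw [hO]; exact hfin
  · rw [hO]
    refine hne 1 (9 * u + 1) (9 * v + 1) (by norm_num) (by linarith) (by linarith) ?_
    unfold R518.Markoff3.val
    ring
  · rw [hO]; exact hdvd

end Pool.Agent.Results.MP_208885_nt.InfinitelyMany
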